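import Mathlib
import Pool.Agent.W770.KP.Stm

set_option autoImplicit false

open scoped Classical

namespace Pool.Agent.W370.KP.ABS

open Pool.Agent.W770.KP

theorem log_le (t : ℝ) (ht : 0 < t) : (2:ℝ) ^ (Int.log 2 t) ≤ t := by
  have h := Int.zpow_log_le_self (R := ℝ) (b := 2) (by norm_num) ht
  have e : ((2:ℕ):ℝ) = (2:ℝ) := by norm_num
  rw [e] at h
  exact h

theorem log_ge (t : ℝ) : t ≤ 2 * (2:ℝ) ^ (Int.log 2 t) := by
  have h := Int.lt_zpow_succ_log_self (R := ℝ) (b := 2) (by norm_num) t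
  have e : ((2:ℕ):ℝ) = (2:ℝ) := by norm_num
  rw [e, zpow_add₀ (by norm_num : (2:ℝ) ≠ 0), zpow_one, mul_comm] at h
  exact h.le

/-- one stage: powers of the masses of the planes of the stage. -/
theorem stage_pow {ι X : Type} [Fintype ι] [Fintype X] (n k : ℕ)
    (V : ι → Finset X) (f : X → ℝ) (hf : ∀ x, 0 ≤ f x) (Λ : Finset ℤ)
    (B : ℤ → Finset X) (R : ℝ) (J : Finset ι)
    (hJ : ∀ i ∈ J, ∑ x ∈ V i, f x ≤ (4:ℝ) ^ (k+2) * ∑ x ∈ V i, ∑ l ∈ Λ,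
        (if x ∈ B l then (4:ℝ) ^ (l * ((k:ℤ) + 1)) else 0))
    (hR : ∑ i : ι, (∑ x ∈ V i, ∑ l ∈ Λ, if x ∈ B l then (4:ℝ) ^ (l * ((k:ℤ) + 1)) else 0) ^ n ≤ R) :
    ∑ i ∈ J, (∑ x ∈ V i, f x) ^ n ≤ (4:ℝ) ^ ((k+2) * n) * R := by
  have hpos : ∀ i : ι, 0 ≤ ∑ x ∈ V i, ∑ l ∈ Λ,
      (if x ∈ B l then (4:ℝ) ^ (l * ((k:ℤ) + 1)) else 0) := by
    intro i
    apply Finset.sum_nonneg
    intro x _
    apply Finset.sum_nonneg
    intro l _
    split_ifs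
    · positivity
    · exact le_refl _
  calc ∑ i ∈ J, (∑ x ∈ V i, f x) ^ n
      ≤ ∑ i ∈ J, (4:ℝ) ^ ((k+2) * n) * (∑ x ∈ V i, ∑ l ∈ Λ,
          (if x ∈ B l then (4:ℝ) ^ (l * ((k:ℤ) + 1)) else 0)) ^ n := by
        apply Finset.sum_le_sum
        intro i hi
        rw [pow_mul, ← mul_pow]
        apply pow_le_pow_left₀
        · apply Finset.sum_nonneg
          intro x _
          exact hf x
        · exact hJ i hi
    _ ≤ ∑ i : ι, (4:ℝ) ^ ((k+2) * n) * (∑ x ∈ V i, ∑ l ∈ Λ,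
          (if x ∈ B l then (4:ℝ) ^ (l * ((k:ℤ) + 1)) else 0)) ^ n := by
        apply Finset.sum_le_sum_of_subset_of_nonneg (Finset.subset_univ J)
        intro i _ _
        have := hpos i
        positivity
    _ = (4:ℝ) ^ ((k+2) * n) * ∑ i : ι, (∑ x ∈ V i, ∑ l ∈ Λ,
          (if x ∈ B l then (4:ℝ) ^ (l * ((k:ℤ) + 1)) else 0)) ^ n := by
        rw [← Finset.mul_sum]
    _ ≤ (4:ℝ) ^ ((k+2) * n) * R := by
        apply mul_le_mul_of_nonneg_left hR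
        positivity

/-- power of four bookkeeping -/
theorem four_pow (n k : ℕ) (l : ℤ) (Gt N : ℝ) (hN : 0 < N) :
    (4:ℝ) ^ (l * ((n:ℤ) - (k:ℤ))) *
      (4 * ((4:ℝ) ^ ((l+1) * ((k:ℤ) + 1)) * N) / ((4:ℝ) ^ (l * ((n:ℤ) + 1)) * N / (2 * Gt)))
      = 8 * (4:ℝ) ^ (k+1) * Gt := by
  have h4 : (4:ℝ) ≠ 0 := by norm_num
  have e1 : (4:ℝ) ^ ((l+1) * ((k:ℤ) + 1)) = (4:ℝ) ^ (l * ((k:ℤ)+1)) * (4:ℝ) ^ (k+1) := by
    rw [← zpow_natCast, ← zpow_add₀ h4]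
    congr 1
    push_cast
    ring
  have e2 : (4:ℝ) ^ (l * ((n:ℤ) + 1)) = (4:ℝ) ^ (l * ((n:ℤ) - (k:ℤ))) * (4:ℝ) ^ (l * ((k:ℤ)+1)) := by
    rw [← zpow_add₀ h4]
    congr 1
    ring
  rw [e1, e2]
  have p1 : (4:ℝ) ^ (l * ((n:ℤ) - (k:ℤ))) ≠ 0 := by positivity
  have p2 : (4:ℝ) ^ (l * ((k:ℤ)+1)) ≠ 0 := by positivity
  have hN' : N ≠ 0 := hN.ne'
  rcases eq_or_ne Gt 0 with h0 | h0
  · subst h0
    simp
  · field_simp
    ring

/-- the contribution of the stages to one level -/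
theorem level_sum {ι X : Type} (hZS : S_ZS) (n k : ℕ)
    (T : ι → ℝ) (st : ι → ℤ) (hst : ∀ i, 0 < T i → (2:ℝ) ^ (st i) ≤ T i)
    (V : ι → Finset X) (Sl : Finset X) (Q : Finset ι) (l : ℤ) (Gt : ℝ) (hGt : 0 < Gt)
    (hS : Sl.Nonempty)
    (hQ1 : ∀ i ∈ Q, 0 < T i ∧ ((4:ℝ) ^ (l * ((n:ℤ) + 1)) * (Sl.card : ℝ) / (2 * Gt)) * T i
      ≤ (4:ℝ) ^ ((l+1) * ((k:ℤ) + 1)) * ((V i ∩ Sl).card : ℝ))
    (hQ2 : ∑ i ∈ Q, (V i ∩ Sl).card ≤ 2 * Sl.card) (Sg : Finset ℤ) :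
    (4:ℝ) ^ (l * ((n:ℤ) - (k:ℤ))) *
      ∑ s ∈ Sg, (2:ℝ) ^ s * ((Q.filter (fun w => s ≤ st w)).card : ℝ)
      ≤ 8 * (4:ℝ) ^ (k+1) * Gt := by
  have hN : (0:ℝ) < (Sl.card : ℝ) := by
    exact_mod_cast Finset.card_pos.mpr hS
  rw [← four_pow n k l Gt (Sl.card : ℝ) hN]
  apply mul_le_mul_of_nonneg_left
  · set c : ℝ := (4:ℝ) ^ (l * ((n:ℤ) + 1)) * (Sl.card : ℝ) / (2 * Gt) with hc
    have hcpos : 0 < c := by positivity
    calc ∑ s ∈ Sg, (2:ℝ) ^ s * ((Q.filter (fun w => s ≤ st w)).card : ℝ)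
        ≤ 2 * ∑ w ∈ Q, (2:ℝ) ^ (st w) := hZS.2 ι Q st Sg
      _ ≤ 2 * ∑ w ∈ Q, (4:ℝ) ^ ((l+1) * ((k:ℤ) + 1)) * ((V w ∩ Sl).card : ℝ) / c := by
          apply mul_le_mul_of_nonneg_left _ (by norm_num)
          apply Finset.sum_le_sum
          intro w hw
          obtain ⟨hT, hb⟩ := hQ1 w hw
          refine le_trans (hst w hT) ?_
          rw [le_div_iff₀ hcpos, mul_comm]
          exact hb
      _ = 2 * ((4:ℝ) ^ ((l+1) * ((k:ℤ) + 1)) * ((∑ w ∈ Q, (V w ∩ Sl).card : ℕ) : ℝ) / c) := by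
          rw [← Finset.sum_div, ← Finset.mul_sum]
          push_cast
          rfl
      _ ≤ 2 * ((4:ℝ) ^ ((l+1) * ((k:ℤ) + 1)) * ((2 * Sl.card : ℕ) : ℝ) / c) := by
          apply mul_le_mul_of_nonneg_left _ (by norm_num)
          apply div_le_div_of_nonneg_right _ hcpos.le
          apply mul_le_mul_of_nonneg_left _ (by positivity)
          exact_mod_cast hQ2
      _ = 4 * ((4:ℝ) ^ ((l+1) * ((k:ℤ) + 1)) * (Sl.card : ℝ)) / c := by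
          push_cast
          ring
  · positivity

/-- the final summation -/
theorem final {ι : Type} (n k : ℕ) (hk : 1 ≤ k) (Λ Sg : Finset ℤ) (T : ι → ℝ) (st : ι → ℤ)
    (hT0 : ∀ i, 0 ≤ T i) (hst2 : ∀ i, T i ≤ 2 * (2:ℝ) ^ (st i)) (J : ℤ → Finset ι)
    (hJ : ∀ s, ∀ i ∈ J s, st i = s) (G : ℤ → ℝ) (Gt A FF : ℝ) (hA : 0 ≤ A)
    (hGpos : ∀ l ∈ Λ, 0 < G l) (hGt : Gt = ∑ l ∈ Λ, G l) (hGt0 : 0 ≤ Gt) (hGtle : Gt ≤ FF)
    (P : ℤ → ℤ → ℝ)
    (hstage : ∀ s : ℤ, ∑ i ∈ J s, (T i) ^ n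
          ≤ (4:ℝ) ^ ((k+2) * n) * (A * Gt ^ (k-1) *
            ∑ l ∈ Λ, G l * ∑ l' ∈ Λ, (2:ℝ) ^ (-|l - l'|) * (4:ℝ) ^ (l' * ((n:ℤ) - (k:ℤ)))
              * P s l'))
    (hlevel : ∀ l ∈ Λ, (4:ℝ) ^ (l * ((n:ℤ) - (k:ℤ))) *
        ∑ s ∈ Sg, (2:ℝ) ^ s * P s l ≤ 8 * (4:ℝ) ^ (k+1) * Gt)
    (hZS : ∀ (Λ : Finset ℤ) (l : ℤ), ∑ l' ∈ Λ, (2:ℝ) ^ (-|l - l'|) ≤ 3) :
    ∑ s ∈ Sg, ∑ i ∈ J s, (T i) ^ (n+1)
      ≤ 2 * (4:ℝ) ^ ((k+2) * n) * 3 * (8 * (4:ℝ) ^ (k+1)) * A * FF ^ (k+1) := by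
  calc ∑ s ∈ Sg, ∑ i ∈ J s, (T i) ^ (n+1)
      ≤ ∑ s ∈ Sg, 2 * (2:ℝ) ^ s * ∑ i ∈ J s, (T i) ^ n := by
        apply Finset.sum_le_sum
        intro s _
        rw [Finset.mul_sum]
        apply Finset.sum_le_sum
        intro i hi
        rw [pow_succ, mul_comm]
        apply mul_le_mul_of_nonneg_right _ (pow_nonneg (hT0 i) n)
        have := hst2 i
        rw [hJ s i hi] at this
        exact this
    _ ≤ ∑ s ∈ Sg, 2 * (2:ℝ) ^ s * ((4:ℝ) ^ ((k+2) * n) * (A * Gt ^ (k-1) *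
          ∑ l ∈ Λ, G l * ∑ l' ∈ Λ, (2:ℝ) ^ (-|l - l'|) * (4:ℝ) ^ (l' * ((n:ℤ) - (k:ℤ)))
            * P s l')) := by
        apply Finset.sum_le_sum
        intro s _
        apply mul_le_mul_of_nonneg_left (hstage s)
        positivity
    _ = 2 * (4:ℝ) ^ ((k+2) * n) * (A * Gt ^ (k-1)) *
          ∑ l ∈ Λ, G l * ∑ l' ∈ Λ, (2:ℝ) ^ (-|l - l'|) * ((4:ℝ) ^ (l' * ((n:ℤ) - (k:ℤ)))
            * ∑ s ∈ Sg, (2:ℝ) ^ s * P s l') := by
        simp only [Finset.mul_sum]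
        rw [Finset.sum_comm]
        apply Finset.sum_congr rfl
        intro l _
        rw [Finset.sum_comm]
        apply Finset.sum_congr rfl
        intro l' _
        apply Finset.sum_congr rfl
        intro s _
        ring
    _ ≤ 2 * (4:ℝ) ^ ((k+2) * n) * (A * Gt ^ (k-1)) *
          ∑ l ∈ Λ, G l * (3 * (8 * (4:ℝ) ^ (k+1) * Gt)) := by
        apply mul_le_mul_of_nonneg_left _ (by positivity)
        apply Finset.sum_le_sum
        intro l hl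
        apply mul_le_mul_of_nonneg_left _ (hGpos l hl).le
        calc ∑ l' ∈ Λ, (2:ℝ) ^ (-|l - l'|) * ((4:ℝ) ^ (l' * ((n:ℤ) - (k:ℤ)))
            * ∑ s ∈ Sg, (2:ℝ) ^ s * P s l')
            ≤ ∑ l' ∈ Λ, (2:ℝ) ^ (-|l - l'|) * (8 * (4:ℝ) ^ (k+1) * Gt) := by
              apply Finset.sum_le_sum
              intro l' hl'
              apply mul_le_mul_of_nonneg_left (hlevel l' hl')
              positivity
          _ = (∑ l' ∈ Λ, (2:ℝ) ^ (-|l - l'|)) * (8 * (4:ℝ) ^ (k+1) * Gt) := by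
              rw [Finset.sum_mul]
          _ ≤ 3 * (8 * (4:ℝ) ^ (k+1) * Gt) := by
              apply mul_le_mul_of_nonneg_right (hZS Λ l)
              positivity
    _ = 2 * (4:ℝ) ^ ((k+2) * n) * 3 * (8 * (4:ℝ) ^ (k+1)) * A * Gt ^ (k+1) := by
        rw [← Finset.sum_mul, ← hGt]
        have : Gt ^ (k+1) = Gt ^ (k-1) * Gt * Gt := by
          obtain ⟨j, rfl⟩ : ∃ j, k = j + 1 := ⟨k - 1, by omega⟩
          rw [Nat.add_sub_cancel]
          ring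
        rw [this]
        ring
    _ ≤ 2 * (4:ℝ) ^ ((k+2) * n) * 3 * (8 * (4:ℝ) ^ (k+1)) * A * FF ^ (k+1) := by
        apply mul_le_mul_of_nonneg_left _ (by positivity)
        exact pow_le_pow_left₀ hGt0 hGtle (k+1)

theorem abs : S_GR → S_LEV → S_ZS → S_PRN → S_ABS := by
  intro hGR hLEV hZS hPRN n k hk hkn
  refine ⟨2 * (4:ℝ) ^ ((k+2) * n) * 3 * (8 * (4:ℝ) ^ (k+1)), by positivity, ?_⟩
  intro ι X _ _ V A hA H f hf
  obtain ⟨Λ, S, hne, hlev, hcov, hdisj, hsum⟩ := hLEV n k X f hf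
  obtain ⟨T, hT⟩ : ∃ T : ι → ℝ, ∀ i, T i = ∑ x ∈ V i, f x := ⟨_, fun i => rfl⟩
  have hT0 : ∀ i, 0 ≤ T i := by
    intro i
    rw [hT i]
    exact Finset.sum_nonneg (fun x _ => hf x)
  have hTeq : ∑ i : ι, (∑ x ∈ V i, f x) ^ (n+1) = ∑ i : ι, (T i) ^ (n+1) := by
    apply Finset.sum_congr rfl
    intro i _
    rw [hT i]
  rw [hTeq]
  obtain ⟨FF, hFF⟩ : ∃ FF : ℝ, FF = ∑ x : X, (f x) ^ (((n:ℝ) + 1) / ((k:ℝ) + 1)) := ⟨_, rfl⟩
  have hFF0 : 0 ≤ FF := by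
    rw [hFF]
    exact Finset.sum_nonneg (fun x _ => Real.rpow_nonneg (hf x) _)
  rw [← hFF] at hsum
  rw [← hFF]
  rcases Finset.eq_empty_or_nonempty Λ with hΛ | hΛ
  · -- `f = 0`
    have hf0 : ∀ x, f x = 0 := by
      intro x
      by_contra hx
      have hx' : 0 < f x := lt_of_le_of_ne (hf x) (Ne.symm hx)
      obtain ⟨l, hl, _⟩ := hcov x hx'
      rw [hΛ] at hl
      exact absurd hl (Finset.notMem_empty l)
    have hL : ∑ i : ι, (T i) ^ (n+1) = 0 := by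
      apply Finset.sum_eq_zero
      intro i _
      have : T i = 0 := by
        rw [hT i]
        exact Finset.sum_eq_zero (fun x _ => hf0 x)
      rw [this]
      exact zero_pow (Nat.succ_ne_zero n)
    rw [hL]
    positivity
  · obtain ⟨G, hG⟩ : ∃ G : ℤ → ℝ, ∀ l, G l = (4:ℝ) ^ (l * ((n:ℤ) + 1)) * ((S l).card : ℝ) :=
      ⟨_, fun l => rfl⟩
    obtain ⟨Gt, hGt⟩ : ∃ Gt : ℝ, Gt = ∑ l ∈ Λ, G l := ⟨_, rfl⟩
    have hGpos : ∀ l ∈ Λ, 0 < G l := by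
      intro l hl
      have : (0:ℝ) < ((S l).card : ℝ) := by
        exact_mod_cast Finset.card_pos.mpr (hne l hl)
      rw [hG l]
      positivity
    have hGtpos : 0 < Gt := by
      rw [hGt]
      exact Finset.sum_pos hGpos hΛ
    have hGtle : Gt ≤ FF := by
      refine le_trans (le_of_eq ?_) hsum
      rw [hGt]
      exact Finset.sum_congr rfl (fun l _ => hG l)
    obtain ⟨c, hc⟩ : ∃ c : ℤ → ℝ, ∀ l, c l = G l / (2 * Gt) := ⟨_, fun l => rfl⟩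
    have hcnn : ∀ l ∈ Λ, 0 ≤ c l := by
      intro l hl
      rw [hc l]
      exact div_nonneg (hGpos l hl).le (by positivity)
    have hcsum : ∑ l ∈ Λ, c l ≤ 1 / 2 := by
      have e : ∑ l ∈ Λ, c l = Gt / (2 * Gt) := by
        rw [hGt, Finset.sum_div]
        rw [← hGt]
        exact Finset.sum_congr rfl (fun l _ => hc l)
      rw [e]
      apply le_of_eq
      field_simp
    obtain ⟨st, hst⟩ : ∃ st : ι → ℤ, ∀ i, st i = Int.log 2 (T i) := ⟨_, fun i => rfl⟩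
    have hst1 : ∀ i, 0 < T i → (2:ℝ) ^ (st i) ≤ T i := by
      intro i hi
      rw [hst i]
      exact log_le (T i) hi
    have hst2 : ∀ i, T i ≤ 2 * (2:ℝ) ^ (st i) := by
      intro i
      rw [hst i]
      exact log_ge (T i)
    clear hst
    -- greedy selection
    obtain ⟨I, hI⟩ : ∃ I : ℤ → Finset ι, ∀ l i, i ∈ I l ↔ (0 < T i ∧
          c l * T i ≤ (4:ℝ) ^ ((l+1) * ((k:ℤ) + 1)) * ((V i ∩ S l).card : ℝ)) := by
      refine ⟨fun l => Finset.univ.filter (fun i : ι => 0 < T i ∧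
          c l * T i ≤ (4:ℝ) ^ ((l+1) * ((k:ℤ) + 1)) * ((V i ∩ S l).card : ℝ)), ?_⟩
      intro l i
      rw [Finset.mem_filter]
      exact ⟨fun h => h.2, fun h => ⟨Finset.mem_univ i, h⟩⟩
    have hsel : ∀ l : ℤ, ∃ Q : Finset ι, Q ⊆ I l ∧
        (∀ i ∈ I l, (V i ∩ S l).card ≤ 2 * ((V i ∩ S l).filter
            (fun x => ∃ j ∈ Q, st i ≤ st j ∧ x ∈ V j ∩ S l)).card) ∧
        ∑ i ∈ Q, (V i ∩ S l).card ≤ 2 * (S l).card := by
      intro l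
      exact hGR ι X (I l) (fun i => V i ∩ S l) (S l) (fun i _ => Finset.inter_subset_right) st
    choose Q hQsub hQbig hQsum using hsel
    obtain ⟨P, hP⟩ : ∃ P : ℤ → ℤ → Finset ι, ∀ s l, P s l = (Q l).filter (fun j => s ≤ st j) :=
      ⟨_, fun s l => rfl⟩
    obtain ⟨B, hB⟩ : ∃ B : ℤ → ℤ → Finset X, ∀ s l, B s l =
        (S l).filter (fun x => ∃ j ∈ P s l, x ∈ V j) := ⟨_, fun s l => rfl⟩
    -- the stage estimate
    have hR : ∀ s : ℤ,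
        ∑ i : ι, (∑ x ∈ V i, ∑ l ∈ Λ, if x ∈ B s l then (4:ℝ) ^ (l * ((k:ℤ) + 1)) else 0) ^ n
        ≤ A * Gt ^ (k-1) *
            ∑ l ∈ Λ, G l * ∑ l' ∈ Λ, (2:ℝ) ^ (-|l - l'|) * (4:ℝ) ^ (l' * ((n:ℤ) - (k:ℤ)))
              * ((P s l').card : ℝ) := by
      intro s
      rw [hGt]
      apply H Λ (P s) (B s)
      · intro l _ x hx
        rw [hB s l, Finset.mem_filter] at hx
        exact hx.2
      · intro l _
        rw [hG l]
        apply mul_le_mul_of_nonneg_left _ (by positivity)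
        have : (B s l).card ≤ (S l).card := by
          rw [hB s l]
          exact Finset.card_le_card (Finset.filter_subset _ _)
        exact_mod_cast this
    obtain ⟨J, hJ⟩ : ∃ J : ℤ → Finset ι, ∀ s, J s =
        (Finset.univ.filter (fun i : ι => 0 < T i)).filter (fun i => st i = s) := ⟨_, fun s => rfl⟩
    have hJmem : ∀ s i, i ∈ J s → 0 < T i ∧ st i = s := by
      intro s i hi
      rw [hJ s, Finset.mem_filter, Finset.mem_filter] at hi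
      exact ⟨hi.1.2, hi.2⟩
    have hstage : ∀ s : ℤ, ∑ i ∈ J s, (T i) ^ n
          ≤ (4:ℝ) ^ ((k+2) * n) * (A * Gt ^ (k-1) *
            ∑ l ∈ Λ, G l * ∑ l' ∈ Λ, (2:ℝ) ^ (-|l - l'|) * (4:ℝ) ^ (l' * ((n:ℤ) - (k:ℤ)))
              * ((P s l').card : ℝ)) := by
      intro s
      have e : ∑ i ∈ J s, (T i) ^ n = ∑ i ∈ J s, (∑ x ∈ V i, f x) ^ n :=
        Finset.sum_congr rfl (fun i _ => by rw [hT i])
      rw [e]
      apply stage_pow n k V f hf Λ (B s) _ (J s) _ (hR s)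
      intro i hi
      obtain ⟨hTi, hsi⟩ := hJmem s i hi
      apply hPRN k ι X V f hf Λ S hlev hcov hdisj c hcnn hcsum (B s) i
      intro l hl hrel
      rw [← hT i] at hrel
      have himem : i ∈ I l := (hI l i).mpr ⟨hTi, hrel⟩
      refine le_trans (hQbig l i himem) ?_
      apply Nat.mul_le_mul_left
      apply Finset.card_le_card
      intro x hx
      rw [Finset.mem_filter, Finset.mem_inter] at hx
      obtain ⟨⟨hxV, hxS⟩, j, hjQ, hj, hxj⟩ := hx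
      rw [Finset.mem_inter] at hxj
      rw [Finset.mem_inter]
      refine ⟨hxV, ?_⟩
      rw [hB s l, Finset.mem_filter]
      refine ⟨hxS, j, ?_, hxj.1⟩
      rw [hP s l, Finset.mem_filter]
      exact ⟨hjQ, hsi ▸ hj⟩
    -- sum over the stages
    obtain ⟨Sg, hSg⟩ : ∃ Sg : Finset ℤ, Sg = (Finset.univ.filter (fun i : ι => 0 < T i)).image st :=
      ⟨_, rfl⟩
    have hsplit : ∑ i : ι, (T i) ^ (n+1) = ∑ s ∈ Sg, ∑ i ∈ J s, (T i) ^ (n+1) := by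
      have e1 : ∑ s ∈ Sg, ∑ i ∈ J s, (T i) ^ (n+1)
          = ∑ i ∈ Finset.univ.filter (fun i : ι => 0 < T i), (T i) ^ (n+1) := by
        have e2 : ∑ s ∈ Sg, ∑ i ∈ J s, (T i) ^ (n+1) = ∑ s ∈ Sg,
            ∑ i ∈ (Finset.univ.filter (fun i : ι => 0 < T i)).filter (fun i => st i = s),
              (T i) ^ (n+1) := Finset.sum_congr rfl (fun s _ => by rw [hJ s])
        rw [e2]
        apply Finset.sum_fiberwise_of_maps_to
        intro i hi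
        rw [hSg]
        exact Finset.mem_image_of_mem st hi
      rw [e1, Finset.sum_filter]
      apply Finset.sum_congr rfl
      intro i _
      split_ifs with h
      · rfl
      · have : T i = 0 := le_antisymm (not_lt.mp h) (hT0 i)
        rw [this]
        exact zero_pow (Nat.succ_ne_zero n)
    have hlevel : ∀ l ∈ Λ, (4:ℝ) ^ (l * ((n:ℤ) - (k:ℤ))) *
        ∑ s ∈ Sg, (2:ℝ) ^ s * ((P s l).card : ℝ) ≤ 8 * (4:ℝ) ^ (k+1) * Gt := by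
      intro l hl
      have e : ∑ s ∈ Sg, (2:ℝ) ^ s * ((P s l).card : ℝ)
          = ∑ s ∈ Sg, (2:ℝ) ^ s * (((Q l).filter (fun w => s ≤ st w)).card : ℝ) :=
        Finset.sum_congr rfl (fun s _ => by rw [hP s l])
      rw [e]
      apply level_sum (X := X) hZS n k T st hst1 V (S l) (Q l) l Gt hGtpos (hne l hl) _ (hQsum l) Sg
      intro i hi
      have := (hI l i).mp (hQsub l hi)
      rw [hc l, hG l] at this
      exact this
    rw [hsplit]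
    exact final n k hk Λ Sg T st hT0 hst2 J (fun s i hi => (hJmem s i hi).2) G Gt A FF hA hGpos hGt
      hGtpos.le hGtle (fun s l => ((P s l).card : ℝ)) hstage hlevel hZS.1

end Pool.Agent.W370.KP.ABS
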